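import Pool.Agent.Helper70K1.NQ.Core

/-!
# There is a good table of polynomial size
-/

set_option autoImplicit false

namespace Pool.Agent.Helper70K1.NQ

open Pool.Agent.NPC
open Pool.Agent.Helper70K1.PP
open Pool.Agent.Helper70K1.SP
open Pool.Agent.H623R2.PS (evq)
open Pool.Agent.H656R2.AK (evc)

theorem length_flatMap_le {α β : Type} (f : α → List β) (B : ℕ) : ∀ l : List α,
    (∀ a ∈ l, (f a).length ≤ B) → (l.flatMap f).length ≤ l.length * B
  | [], _ => by simp
  | a :: l, h => by
    rw [List.flatMap_cons, List.length_append, List.length_cons]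
    have h1 := h a List.mem_cons_self
    have h2 := length_flatMap_le f B l fun b hb => h b (List.mem_cons_of_mem _ hb)
    nlinarith

/-- The entries of the table for an instance. -/
noncomputable def entN (P : Polynomial ℕ) (ch : List Bool → List Bool) (I : Ins) : Tab :=
  (List.range (I.m * I.m + 1)).flatMap fun j =>
    (List.range (2 ^ (rrP ((PE P).eval I.m) * cc))).flatMap fun q =>
      (List.range (2 ^ (rrP ((PE P).eval I.m) * (2 * cc)))).map fun t =>
        (YN P I j q t, ch (YN P I j q t))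

theorem mem_entN {P : Polynomial ℕ} {ch : List Bool → List Bool} {I : Ins}
    {e : List Bool × List Bool} : e ∈ entN P ch I ↔ ∃ j ≤ I.m * I.m,
      ∃ q < 2 ^ (rrP ((PE P).eval I.m) * cc), ∃ t < 2 ^ (rrP ((PE P).eval I.m) * (2 * cc)),
        e = (YN P I j q t, ch (YN P I j q t)) := by
  unfold entN
  simp only [List.mem_flatMap, List.mem_range, List.mem_map, Nat.lt_succ_iff]
  constructor
  · rintro ⟨j, hj, q, hq, t, ht, h⟩
    exact ⟨j, hj, q, hq, t, ht, h.symm⟩
  · rintro ⟨j, hj, q, hq, t, ht, h⟩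
    exact ⟨j, hj, q, hq, t, ht, h.symm⟩

theorem length_entN (P : Polynomial ℕ) (ch : List Bool → List Bool) (I : Ins) :
    (entN P ch I).length ≤ (I.m * I.m + 1) * (2 ^ (rrP ((PE P).eval I.m) * cc) *
      2 ^ (rrP ((PE P).eval I.m) * (2 * cc))) := by
  unfold entN
  refine (length_flatMap_le _ (2 ^ (rrP ((PE P).eval I.m) * cc) *
      2 ^ (rrP ((PE P).eval I.m) * (2 * cc))) _ fun j _ => ?_).trans (by rw [List.length_range])
  refine (length_flatMap_le _ (2 ^ (rrP ((PE P).eval I.m) * (2 * cc))) _ fun q _ => ?_).trans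
    (by rw [List.length_range])
  rw [List.length_map, List.length_range]

/-- The bound for the codes of the lists of queries. -/
noncomputable def YB (P : Polynomial ℕ) : Polynomial ℕ :=
  PE P * (Polynomial.C 4 * PP.PN + Polynomial.C 2) + Polynomial.C 1

/-- The bound for the entries of the table. -/
noncomputable def BE (P q0 : Polynomial ℕ) : Polynomial ℕ :=
  Polynomial.C 4 * YB P + Polynomial.C 4 * q0.comp (YB P) + Polynomial.C 3

/-- The bound for the table. -/
noncomputable def BT (P q0 : Polynomial ℕ) : Polynomial ℕ :=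
  Polynomial.X * ((Polynomial.X * Polynomial.X + Polynomial.C 1) *
    (Polynomial.C 4 * PE P ^ 2 + Polynomial.C 1) ^ 72) * (BE P q0 + Polynomial.C 1) +
      Polynomial.C 1

variable {P q0 : Polynomial ℕ} {gg : List Bool → List (List Bool × Bool)} {qs : List Bool}
  {F : List (List (Bool × ℕ))} {m p : ℕ}

/-- There is a good table of polynomial size. -/
theorem table_exists (H : Par P qs F m p) (hpred : SpecN P q0 gg) :
    ∃ T : Tab, VisOK p ((PDP P).eval m) (cdT gg q0 P m p F T) (opsQ qs.length 0 qs)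
      (List.replicate qs.length 0) ∧ sz T ≤ (BT P q0).eval m := by
  classical
  have hsz := H.hsz
  set ch : List Bool → List Bool := fun y =>
    if h : ∃ w : List Bool, w.length ≤ q0.eval y.length ∧ gg (pairBits y w) ≠ [] then h.choose
      else [] with hch
  set gs : List Bool → List (List Bool × Bool) := fun y => gg (pairBits y (ch y)) with hgs
  set vl := visL p ((PDP P).eval m) (fun os r i => cdP gs P (IN m p F os r i))
    (opsQ qs.length 0 qs) (List.replicate qs.length 0) with hvl
  have hv : ∀ v ∈ vl, v.1 <:+ opsQ qs.length 0 qs ∧ v.1 ≠ opsQ qs.length 0 qs ∧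
      v.2.1.length = qs.length ∧ (∀ a ∈ v.2.1, a ≤ p) ∧ v.2.2 < qs.length := by
    refine mem_visL (opsQ_idx _ _ _ (by omega)) _ _ List.suffix_rfl (by simp) fun a ha => ?_
    rw [List.eq_of_mem_replicate ha]
    exact Nat.zero_le _
  set T : Tab := vl.flatMap fun v => entN P ch (IN m p F v.1 v.2.1 v.2.2) with hT
  have hT1 : ∀ e ∈ T, e.2 = ch e.1 := by
    intro e he
    obtain ⟨v, _, he⟩ := List.mem_flatMap.1 he
    obtain ⟨j, _, q, _, t, _, rfl⟩ := mem_entN.1 he
    rfl
  have hchy : ∀ v ∈ vl, ∀ j ≤ m * m, ∀ q < 2 ^ (rrP ((PE P).eval m) * cc),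
      ∀ t < 2 ^ (rrP ((PE P).eval m) * (2 * cc)),
      (ch (YN P (IN m p F v.1 v.2.1 v.2.2) j q t)).length ≤
        q0.eval (YN P (IN m p F v.1 v.2.1 v.2.2) j q t).length ∧
      gs (YN P (IN m p F v.1 v.2.1 v.2.2) j q t) ≠ [] := by
    intro v hvv j hj q hq t ht
    obtain ⟨h1, _, h3, h4, h5⟩ := hv v hvv
    obtain ⟨h6, h7⟩ := inst_legit (i := v.2.2) H h1 h3 h4 h5 hj hq ht
    have h8 := (hpred ((PP.PN).eval m) (YL P (IN m p F v.1 v.2.1 v.2.2) j q t) h6 h7).1
    have h9 : ch (YN P (IN m p F v.1 v.2.1 v.2.2) j q t) = h8.choose := by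
      rw [hch]
      exact dif_pos h8
    rw [hgs]
    simp only
    rw [h9]
    exact h8.choose_spec
  have hgT : ∀ v ∈ vl, ∀ j ≤ m * m, ∀ q < 2 ^ (rrP ((PE P).eval m) * cc),
      ∀ t < 2 ^ (rrP ((PE P).eval m) * (2 * cc)),
      gT gg q0 T (YN P (IN m p F v.1 v.2.1 v.2.2) j q t) =
        gs (YN P (IN m p F v.1 v.2.1 v.2.2) j q t) := by
    intro v hvv j hj q hq t ht
    obtain ⟨h1, h2⟩ := hchy v hvv j hj q hq t ht
    refine gT_of_choice hT1 ?_ ?_
    · rw [hT, List.mem_flatMap]
      refine ⟨v, hvv, mem_entN.2 ⟨j, ?_, q, ?_, t, ?_, rfl⟩⟩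
      · rw [IN_m]; exact hj
      · rw [IN_m]; exact hq
      · rw [IN_m]; exact ht
    · unfold okE
      rw [Bool.and_eq_true, decide_eq_true_eq, Bool.not_eq_true', decide_eq_false_iff_not]
      exact ⟨h1, h2⟩
  refine ⟨T, visOK_of_agree (cd' := fun os r i => cdP gs P (IN m p F os r i)) _ _
    fun v hvv => ?_, ?_⟩
  · obtain ⟨h1, _, h3, h4, h5⟩ := hv v hvv
    have hchk : chkN gg q0 P T (IN m p F v.1 v.2.1 v.2.2) = true := by
      rw [chkN_iff, IN_m]
      intro j hj q hq t ht
      rw [hgT v hvv j hj q hq t ht]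
      exact (hchy v hvv j hj q hq t ht).2
    constructor
    · unfold cdT
      rw [cdC_eq_of_chk hchk]
      refine cdP_congr ?_
      rw [IN_m]
      exact hgT v hvv
    · obtain ⟨V, _, hmem⟩ := chk_cand (i := v.2.2) H hpred h1 h3 h4 h5 hchk
      exact List.ne_nil_of_mem hmem
  · -- the size
    have hM0 : 0 < (PE P).eval m := PE_pos _ _
    obtain ⟨hr0, hr1', hr2'⟩ := rrP_spec hM0
    have hlen : T.length ≤ m * ((m * m + 1) * (4 * ((PE P).eval m) ^ 2 + 1) ^ 72) := by
      have h1 : T.length ≤ vl.length * ((m * m + 1) * (4 * ((PE P).eval m) ^ 2 + 1) ^ 72) := by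
        refine length_flatMap_le _ _ _ fun v _ => ?_
        refine (length_entN P ch (IN m p F v.1 v.2.1 v.2.2)).trans ?_
        rw [IN_m]
        refine Nat.mul_le_mul_left _ ?_
        rw [← pow_add, cc, ← Nat.mul_add, pow_mul]
        exact Nat.pow_le_pow_left hr2' _
      refine h1.trans (Nat.mul_le_mul_right _ ?_)
      rw [hvl, length_visL]
      have := length_lt_sz (opsQ qs.length 0 qs)
      omega
    have hent : ∀ e ∈ T, sz e ≤ (BE P q0).eval m := by
      intro e he
      obtain ⟨v, hvv, he⟩ := List.mem_flatMap.1 he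
      obtain ⟨j, hj, q, hq, t, ht, rfl⟩ := mem_entN.1 he
      rw [IN_m] at hj hq ht
      obtain ⟨h1, _, h3, h4, h5⟩ := hv v hvv
      obtain ⟨h6, h7⟩ := inst_legit (i := v.2.2) H h1 h3 h4 h5 hj hq ht
      obtain ⟨h8, _⟩ := hchy v hvv j hj q hq t ht
      have h9 : (YN P (IN m p F v.1 v.2.1 v.2.2) j q t).length ≤ (YB P).eval m := by
        unfold YN
        rw [bits_length]
        refine (sz_le_length_mul _ (4 * (PP.PN).eval m + 1) fun s hs => ?_).trans ?_
        · have := sz_listBool_le s
          have := h6 s hs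
          omega
        · have h10 : (YL P (IN m p F v.1 v.2.1 v.2.2) j q t).length = (PE P).eval m := by
            unfold YL
            rw [IN_m, List.length_map, List.length_range]
          rw [h10]
          refine le_of_eq ?_
          simp only [YB, Polynomial.eval_add, Polynomial.eval_mul, Polynomial.eval_C]
      have h10 := sz_listBool_le (YN P (IN m p F v.1 v.2.1 v.2.2) j q t)
      have h11 := sz_listBool_le (ch (YN P (IN m p F v.1 v.2.1 v.2.2) j q t))
      have h12 := eval_mono q0 h9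
      have h13 : (BE P q0).eval m = 4 * (YB P).eval m + 4 * q0.eval ((YB P).eval m) + 3 := by
        simp [BE, Polynomial.eval_comp]
      rw [sz_pair, h13]
      omega
    refine (sz_le_length_mul _ _ hent).trans ?_
    have h14 : (BT P q0).eval m = m * ((m * m + 1) * (4 * ((PE P).eval m) ^ 2 + 1) ^ 72) *
        ((BE P q0).eval m + 1) + 1 := by
      simp only [BT, Polynomial.eval_add, Polynomial.eval_mul, Polynomial.eval_C,
        Polynomial.eval_X, Polynomial.eval_pow]
    rw [h14]
    exact Nat.add_le_add_right (Nat.mul_le_mul_right _ hlen) _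

end Pool.Agent.Helper70K1.NQ
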