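import Pool.Agent.Helper70K1.SP.AlgG

/-!
# Runs in which all lists of candidates are nonempty
-/

set_option autoImplicit false

namespace Pool.Agent.Helper70K1.NQ

open Pool.Agent.NPC
open Pool.Agent.Helper70K1.SP

/-- All the lists of candidates that occur in a run are nonempty. -/
def VisOK (p D : ℕ) (cd : List Op → List ℕ → ℕ → List (List ℕ)) : List Op → List ℕ → Prop
  | [], _ => True
  | o :: os, r => cd os r o.2 ≠ [] ∧ VisOK p D cd os (r.set o.2 (sep D p (cd os r o.2)))

/-- The instances that occur in a run. -/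
def visL (p D : ℕ) (cd : List Op → List ℕ → ℕ → List (List ℕ)) :
    List Op → List ℕ → List (List Op × List ℕ × ℕ)
  | [], _ => []
  | o :: os, r => (os, r, o.2) :: visL p D cd os (r.set o.2 (sep D p (cd os r o.2)))

/-- The check that all the lists of candidates of a run are nonempty. -/
def trOK (p D : ℕ) (cd : List Op → List ℕ → ℕ → List (List ℕ)) (os : List Op) (r : List ℕ) : Bool :=
  (((fwdG p D cd)^[os.length] (os, r, [])).2.2).all fun e => decide (e.2.2.2 ≠ [])

theorem tr_all (p D : ℕ) (cd : List Op → List ℕ → ℕ → List (List ℕ)) :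
    ∀ (os : List Op) (r : List ℕ) (tr : List Ent),
    (((fwdG p D cd)^[os.length] (os, r, tr)).2.2.all fun e => decide (e.2.2.2 ≠ [])) = true ↔
      VisOK p D cd os r ∧ (tr.all fun e => decide (e.2.2.2 ≠ [])) = true
  | [], r, tr => by simp [VisOK]
  | o :: os, r, tr => by
    rw [List.length_cons, Function.iterate_succ_apply]
    refine (tr_all p D cd os (r.set o.2 (sep D p (cd os r o.2)))
      ((o, r.getD o.2 0, sep D p (cd os r o.2), cd os r o.2) :: tr)).trans ?_
    rw [VisOK, List.all_cons, Bool.and_eq_true, decide_eq_true_eq]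
    constructor
    · rintro ⟨h1, h2, h3⟩
      exact ⟨⟨h2, h1⟩, h3⟩
    · rintro ⟨⟨h1, h2⟩, h3⟩
      exact ⟨h2, h1, h3⟩

theorem trOK_iff {p D : ℕ} {cd : List Op → List ℕ → ℕ → List (List ℕ)} {os : List Op}
    {r : List ℕ} : trOK p D cd os r = true ↔ VisOK p D cd os r := by
  unfold trOK
  rw [tr_all]
  simp

/-- A run is good if the lists of candidates agree with good ones where they occur. -/
theorem visOK_of_agree {p D : ℕ} {cd cd' : List Op → List ℕ → ℕ → List (List ℕ)} :
    ∀ (os : List Op) (r : List ℕ), (∀ v ∈ visL p D cd' os r, cd v.1 v.2.1 v.2.2 = cd' v.1 v.2.1 v.2.2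
      ∧ cd v.1 v.2.1 v.2.2 ≠ []) → VisOK p D cd os r
  | [], _, _ => trivial
  | o :: os, r, h => by
    have h1 := h (os, r, o.2) List.mem_cons_self
    refine ⟨h1.2, ?_⟩
    rw [h1.1]
    exact visOK_of_agree os _ fun v hv => h v (List.mem_cons_of_mem _ hv)

theorem length_visL (p D : ℕ) (cd : List Op → List ℕ → ℕ → List (List ℕ)) :
    ∀ (os : List Op) (r : List ℕ), (visL p D cd os r).length = os.length
  | [], _ => rfl
  | o :: os, r => by rw [visL, List.length_cons, List.length_cons, length_visL p D cd os]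

/-- The instances that occur in a run. -/
theorem mem_visL {p D : ℕ} {cd : List Op → List ℕ → ℕ → List (List ℕ)} {n : ℕ} {os0 : List Op}
    (hidx : ∀ o ∈ os0, o.2 < n) :
    ∀ (os : List Op) (r : List ℕ), os <:+ os0 → r.length = n → (∀ a ∈ r, a ≤ p) →
      ∀ v ∈ visL p D cd os r, v.1 <:+ os0 ∧ v.1 ≠ os0 ∧ v.2.1.length = n ∧
        (∀ a ∈ v.2.1, a ≤ p) ∧ v.2.2 < n
  | [], _, _, _, _, v, hv => by simp [visL] at hv
  | o :: os, r, hs, hr, hra, v, hv => by
    have hs' : os <:+ os0 := (List.suffix_cons o os).trans hs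
    have hne : os ≠ os0 := by
      rintro rfl
      have := hs.length_le
      simp at this
    rw [visL, List.mem_cons] at hv
    rcases hv with rfl | hv
    · exact ⟨hs', hne, hr, hra, hidx o (hs.subset List.mem_cons_self)⟩
    · refine mem_visL hidx os _ hs' (by rw [List.length_set, hr]) (fun a ha => ?_) v hv
      rcases List.mem_or_eq_of_mem_set ha with h | h
      · exact hra a h
      · exact h ▸ sep_le _ _ _

/-- Correctness of the recursive evaluation for runs in which all lists of candidates are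
nonempty. -/
theorem runG_correct' {p D m n K : ℕ} [Fact (p + 1).Prime] {lv : List ℕ → ℕ}
    {cm : Option Bool → ℕ → ℕ → ℕ → ℕ} {cd : List Op → List ℕ → ℕ → List (List ℕ)}
    {vf : List Op → (ℕ → ZMod (p + 1)) → ZMod (p + 1)} {os0 : List Op}
    (hp1 : 1 ≤ p) (hK : K * K * m ≤ p) (hD : p < D) (hidx : ∀ o ∈ os0, o.2 < n)
    (hlv : ∀ r : List ℕ, r.length = n → (∀ a ∈ r, a ≤ p) →
      ((lv r : ℕ) : ZMod (p + 1)) = vf [] (pt p r))
    (hcm : ∀ (o : Op) (os : List Op) (r : List ℕ) (u w : ℕ), r.length = n → (∀ a ∈ r, a ≤ p) →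
      o.2 < n → (u : ZMod (p + 1)) = vf os (Function.update (pt p r) o.2 0) →
      (w : ZMod (p + 1)) = vf os (Function.update (pt p r) o.2 1) →
      ((cm o.1 (r.getD o.2 0) u w : ℕ) : ZMod (p + 1)) = vf (o :: os) (pt p r))
    (hcd : ∀ (os : List Op) (r : List ℕ) (i : ℕ), os <:+ os0 → os ≠ os0 → r.length = n →
      (∀ a ∈ r, a ≤ p) → i < n → cd os r i ≠ [] → (cd os r i).length ≤ K ∧
        (∀ c ∈ cd os r i, c.length = m ∧ ∀ a ∈ c, a ≤ p) ∧
        ∃ c ∈ cd os r i, ∀ t ≤ p, vf os (Function.update (pt p r) i (t : ZMod (p + 1))) =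
          ((evalN p c t : ℕ) : ZMod (p + 1))) :
    ∀ (os : List Op) (r : List ℕ), os <:+ os0 → r.length = n → (∀ a ∈ r, a ≤ p) →
      VisOK p D cd os r →
      ((runG p D lv cm cd os r : ℕ) : ZMod (p + 1)) = vf os (pt p r)
  | [], r, _, hr, hra, _ => hlv r hr hra
  | o :: os, r, hs, hr, hra, hvis => by
    have hs' : os <:+ os0 := (List.suffix_cons o os).trans hs
    have hne : os ≠ os0 := by
      rintro rfl
      have := hs.length_le
      simp at this
    have hi : o.2 < n := hidx o (hs.subset List.mem_cons_self)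
    obtain ⟨hv1, hv2⟩ := hvis
    obtain ⟨h1, h2, c, hc, hg⟩ := hcd os r o.2 hs' hne hr hra hi hv1
    set C := cd os r o.2 with hC
    have hsep := sep_spec (D := D) (p := p) (C := C) (m := m) (K := K) h2 h1 hK hD
    set t := sep D p C with ht
    have htp : t ≤ p := sep_le _ _ _
    have hrs : (r.set o.2 t).length = n := by rw [List.length_set, hr]
    have hrs2 : ∀ a ∈ r.set o.2 t, a ≤ p := fun a ha => by
      rcases List.mem_or_eq_of_mem_set ha with h | h
      · exact hra a h
      · exact h ▸ htp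
    have ih := runG_correct' hp1 hK hD hidx hlv hcm hcd os (r.set o.2 t) hs' hrs hrs2 hv2
    rw [pt_set (by rw [hr]; exact hi), hg t htp] at ih
    have hy : evalN p c t = runG p D lv cm cd os (r.set o.2 t) % (p + 1) := by
      refine cast_inj_of_le (evalN_le _ _ _) (Nat.lt_succ_iff.1 (Nat.mod_lt _ (Nat.succ_pos p))) ?_
      rw [cast_mod, ih]
    have hfind : ((C.filter fun c => decide (evalN p c t =
        runG p D lv cm cd os (r.set o.2 t) % (p + 1))).head?).getD [] = c := by
      cases hfl : (C.filter fun c => decide (evalN p c t =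
        runG p D lv cm cd os (r.set o.2 t) % (p + 1))) with
      | nil =>
        have : c ∈ (C.filter fun c => decide (evalN p c t =
            runG p D lv cm cd os (r.set o.2 t) % (p + 1))) :=
          List.mem_filter.2 ⟨hc, by simpa using hy⟩
        rw [hfl] at this
        simp at this
      | cons c' l =>
        have : c' ∈ (C.filter fun c => decide (evalN p c t =
            runG p D lv cm cd os (r.set o.2 t) % (p + 1))) := by
          rw [hfl]; exact List.mem_cons_self
        rw [List.mem_filter, decide_eq_true_eq] at this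
        simp only [List.head?_cons, Option.getD_some]
        exact hsep c' this.1 c hc (this.2.trans hy.symm)
    have hrun : runG p D lv cm cd (o :: os) r = cm o.1 (r.getD o.2 0)
        (evalN p c 0) (evalN p c 1) := by
      rw [runG, ← hC, ← ht, stepG]
      simp only [hfind]
    rw [hrun]
    refine hcm o os r _ _ hr hra hi ?_ ?_
    · rw [← hg 0 (by omega), Nat.cast_zero]
    · rw [← hg 1 hp1, Nat.cast_one]

section Poly

variable {α : Type} [TEnc α] {p D : α → ℕ} {cd : α → List Op → List ℕ → ℕ → List (List ℕ)}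

theorem poly_trOK (hp : NPC.Poly p) (hD : UPoly D)
    (hcd : NPC.Poly (fun x : α × List Op × List ℕ × ℕ => cd x.1 x.2.1 x.2.2.1 x.2.2.2))
    {os : α → List Op} (hos : NPC.Poly os) {r : α → List ℕ} (hr : NPC.Poly r) :
    NPC.Poly (fun a => trOK (p a) (D a) (cd a) (os a) (r a)) := by
  have h1 := poly_iterG hp hD hcd hos hr
  unfold trOK
  refine NPC.Poly.all (p := fun (_ : α) (e : Ent) => decide (e.2.2.2 ≠ []))
    (NPC.Poly.snd (NPC.Poly.snd h1)) ?_
  have h2 : NPC.Poly (fun x : α × Ent => !decide (x.2.2.2.2 = [])) :=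
    NPC.Poly.not (NPC.Poly.decide_eq (NPC.Poly.snd (NPC.Poly.snd (NPC.Poly.snd
      (NPC.Poly.snd NPC.Poly.id)))) (NPC.Poly.const []))
  exact h2.congr fun x => by simp
end Poly

end Pool.Agent.Helper70K1.NQ
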