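import Pool.Agent.Helper70K1.NQ.Table
import Pool.Agent.Helper70K1.PP.Main

/-!
# The candidates found with a table
-/

set_option autoImplicit false

namespace Pool.Agent.Helper70K1.NQ

open Pool.Agent.NPC
open Pool.Agent.Helper70K1.PP
open Pool.Agent.Helper70K1.SP

/-- The field that is used. -/
noncomputable def fN (P : Polynomial ℕ) (I : Ins) : List Bool := findF (rrP ((PE P).eval I.m))

/-- The strings in a list of queries. -/
noncomputable def YL (P : Polynomial ℕ) (I : Ins) (j q t : ℕ) : List (List Bool) :=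
  (List.range ((PE P).eval I.m)).map fun i' => bits ((I, j, q, fN P I, t, i') : QryP)

/-- The code of a list of queries. -/
noncomputable def YN (P : Polynomial ℕ) (I : Ins) (j q t : ℕ) : List Bool := bits (YL P I j q t)

/-- The check that the table gives answers for all the lists of queries. -/
noncomputable def chkN (g : List Bool → List (List Bool × Bool)) (q0 P : Polynomial ℕ) (T : Tab)
    (I : Ins) : Bool :=
  (List.range (I.m * I.m + 1)).all fun j =>
    (List.range (2 ^ (rrP ((PE P).eval I.m) * cc))).all fun q =>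
      (List.range (2 ^ (rrP ((PE P).eval I.m) * (2 * cc)))).all fun t =>
        !decide (gT g q0 T (YN P I j q t) = [])

/-- The candidates found with a table. -/
noncomputable def cdC (g : List Bool → List (List Bool × Bool)) (q0 P : Polynomial ℕ) (T : Tab)
    (I : Ins) : List (List ℕ) :=
  if chkN g q0 P T I = true then cdP (gT g q0 T) P I else []

theorem chkN_iff {g : List Bool → List (List Bool × Bool)} {q0 P : Polynomial ℕ} {T : Tab}
    {I : Ins} : chkN g q0 P T I = true ↔ ∀ j ≤ I.m * I.m,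
      ∀ q < 2 ^ (rrP ((PE P).eval I.m) * cc), ∀ t < 2 ^ (rrP ((PE P).eval I.m) * (2 * cc)),
        gT g q0 T (YN P I j q t) ≠ [] := by
  unfold chkN
  simp only [List.all_eq_true, List.mem_range, Bool.not_eq_true', decide_eq_false_iff_not,
    Nat.lt_succ_iff, ne_eq]

theorem cdC_eq_of_chk {g : List Bool → List (List Bool × Bool)} {q0 P : Polynomial ℕ} {T : Tab}
    {I : Ins} (h : chkN g q0 P T I = true) : cdC g q0 P T I = cdP (gT g q0 T) P I := by
  unfold cdC
  rw [if_pos h]

theorem cdP_congr {g g' : List Bool → List (List Bool × Bool)} {P : Polynomial ℕ} {I : Ins}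
    (h : ∀ j ≤ I.m * I.m,
      ∀ q < 2 ^ (rrP ((PE P).eval I.m) * cc), ∀ t < 2 ^ (rrP ((PE P).eval I.m) * (2 * cc)),
        g (YN P I j q t) = g' (YN P I j q t)) : cdP g P I = cdP g' P I := by
  have h1 : listP g (fun j q t i => bits ((I, j, q, findF (rrP ((PE P).eval I.m)), t, i) : QryP))
      ((PE P).eval I.m) (nnP ((PE P).eval I.m)) (rrP ((PE P).eval I.m))
      (findF (rrP ((PE P).eval I.m))) (I.m * I.m) =
      listP g' (fun j q t i => bits ((I, j, q, findF (rrP ((PE P).eval I.m)), t, i) : QryP))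
      ((PE P).eval I.m) (nnP ((PE P).eval I.m)) (rrP ((PE P).eval I.m))
      (findF (rrP ((PE P).eval I.m))) (I.m * I.m) := listP_congr h _ le_rfl
  unfold cdP
  rw [h1]

/-- The true list of coefficients is among the candidates. -/
theorem cand_mem {γ : List Bool → List (List Bool × Bool)} {P : Polynomial ℕ} {m p i V : ℕ}
    {F : List (List (Bool × ℕ))} {os : List Op} {r : List ℕ} {I : Ins}
    (hI : I = (List.replicate m (), p, F, os, r, i)) (hwf : Wf I) [hprime : Fact (p + 1).Prime]
    (hpm : p < 2 ^ m) (hMm : 2 * ((PE P).eval m) ^ 2 < 2 ^ m)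
    (hV : Good I V) (huniq : ∀ V', Good I V' → V = V')
    (hsp : ∀ j ≤ m * m, ∀ q < 2 ^ (rrP ((PE P).eval m) * cc),
      ∀ t < 2 ^ (rrP ((PE P).eval m) * (2 * cc)), γ (YN P I j q t) ≠ [] ∧
        (∀ e ∈ γ (YN P I j q t), e.1.length = (YL P I j q t).length ∧ true ∈ e.1) ∧
        ∀ [∀ x, Decidable (x ∈ LP)], (P.eval (PP.PN.eval m) + 2) * (γ (YN P I j q t)).length ≤
          2 * P.eval (PP.PN.eval m) * ((γ (YN P I j q t)).filter
            (holds ((YL P I j q t).map fun x => decide (x ∈ LP)))).length) :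
    cf I.m V ∈ cdP γ P I := by
  classical
  have hIm : I.m = m := by
    rw [hI]
    change (List.replicate m ()).length = m
    simp
  unfold cdP
  rw [List.mem_filter, List.mem_map, List.all_eq_true]
  refine ⟨⟨V, ?_, rfl⟩, fun a ha => by simpa using hV.2.1 a ha⟩
  set M := (PE P).eval I.m with hM
  have hM0 : 0 < M := PE_pos _ _
  obtain ⟨hr0, hr1', hr2'⟩ := rrP_spec hM0
  obtain ⟨hfl, hz⟩ := findF_spec hr0
  set fl := findF (rrP M) with hfl'
  have h1 := mem_listP (g := γ) (qb := fun j q t i => bits ((I, j, q, fl, t, i) : QryP))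
    (M := M) (N := nnP M) (r := rrP M) (f := fl) (L := LP) (V := V) (μ := I.m * I.m)
    hr0 hfl hz (param_okP hM0 (mm_le_PE P I.m)) hr1' le_rfl (nnP_pos hM0) ?_ ?_
    (I.m * I.m) le_rfl
  · rwa [Nat.mod_eq_of_lt hV.1] at h1
  · intro j q t i' _
    rw [mem_LP hwf]
    have e : bitP fl t (V % 2 ^ j % q) i' = wd (rrP M) fl (hh (rrP M) fl cc t 0
        (V % 2 ^ j % q)) (hh (rrP M) fl cc t cc (V % 2 ^ j % q)) i' := by
      unfold bitP
      rw [hfl]
    constructor
    · rintro ⟨V', h1, h2⟩
      rw [← e, huniq V' h1]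
      exact h2
    · intro h1
      exact ⟨V, hV, by rw [e]; exact h1⟩
  · intro j hj q hq t ht
    have hlen : (YL P I j q t).length = M := by
      unfold YL
      rw [List.length_map, List.length_range]
    obtain ⟨h2, h3, h4⟩ := hsp j (by rw [← hIm]; exact hj) q (by rw [← hIm]; exact hq) t
      (by rw [← hIm]; exact ht)
    rw [hlen] at h3
    refine ⟨⟨h2, h3⟩, ?_⟩
    have h4' := h4
    change (M + 2) * (γ (YN P I j q t)).length ≤ 2 * M * cor (γ (YN P I j q t))
      ((YL P I j q t).map fun x => decide (x ∈ LP))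
    set E := γ (YN P I j q t) with hE
    have h5 : 0 < E.length := List.length_pos_iff.2 h2
    have h6 : P.eval (PP.PN.eval m) ≤ M := by
      rw [hM, PE_eval, hIm]
      omega
    unfold cor
    set X := (E.filter (holds ((YL P I j q t).map fun x => decide (x ∈ LP)))).length with hX
    set Q := P.eval (PP.PN.eval m) with hQ
    have h7 : E.length ≤ 2 * X := by
      by_contra hcon
      push Not at hcon
      have : 2 * Q * X ≤ Q * E.length := by nlinarith
      nlinarith
    have h8 : Q * ((M + 2) * E.length) ≤ Q * (2 * M * X) := by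
      nlinarith
    rcases Nat.eq_zero_or_pos Q with h9 | h9
    · exfalso
      rw [h9] at h4'
      have h10 : (0 + 2) * E.length ≤ 2 * 0 * X := h4'
      omega
    · exact Nat.le_of_mul_le_mul_left h8 h9

/-! ### Complexity -/

variable {α : Type} [TEnc α] {g : List Bool → List (List Bool × Bool)}

theorem cdP_gT_eq (g : List Bool → List (List Bool × Bool)) (q0 P : Polynomial ℕ) (T : Tab)
    (I : Ins) : cdP (gT g q0 T) P I =
      ((listP (gE g q0) (fun j q t i => bits ((T, bits ((I, j, q, fN P I, t, i) : QryP)) :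
        Tab × List Bool)) ((PE P).eval I.m) (nnP ((PE P).eval I.m)) (rrP ((PE P).eval I.m))
        (fN P I) (I.m * I.m)).map (cf I.m)).filter fun cs => cs.all fun a => decide (a ≤ I.p) := by
  unfold cdP
  rw [listP_congr (g := gT g q0 T) (g' := gE g q0) (qb' := fun j q t i => bits ((T,
    bits ((I, j, q, fN P I, t, i) : QryP)) : Tab × List Bool)) ?_ _ le_rfl]
  · rfl
  · intro j _ q _ t _
    exact (gE_eq g q0 T (PE_pos P I.m) (fun i => bits ((I, j, q, fN P I, t, i) : QryP))).symm

theorem poly_cdC (hg : PolyTime fun y => bits (g y)) (q0 P : Polynomial ℕ) {T : α → Tab}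
    (hT : NPC.Poly T) {I : α → Ins} (hI : NPC.Poly I) :
    NPC.Poly (fun x => cdC g q0 P (T x) (I x)) := by
  have hmU := uPoly_m hI
  have hMU := hmU.eval (PE P)
  have hM2U : UPoly (fun x => 2 * ((PE P).eval (I x).m) ^ 2) := by
    have := hMU.eval (Polynomial.C 2 * Polynomial.X ^ 2)
    simpa using this
  have hrU : UPoly (fun x => rrP ((PE P).eval (I x).m)) := upoly_size hM2U
  have hRB : RB (fun x => rrP ((PE P).eval (I x).m)) := by
    refine ⟨hrU, UPoly.of_le (poly_pow2 hrU) (UPoly.add (UPoly.mul (UPoly.const 2) hM2U)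
      (UPoly.const 1)) fun x => ?_⟩
    refine (rrP_spec (PE_pos _ _)).2.2.trans (le_of_eq ?_)
    ring
  have hNU : UPoly (fun x => nnP ((PE P).eval (I x).m)) := by
    have h1 := (hMU.eval (Polynomial.X ^ 2)).mul hRB.four
    unfold nnP
    simpa using h1
  have hFP : NPC.Poly (fun x => fN P (I x)) := poly_findF hRB.hr hRB.h1
  have h1 : NPC.Poly (fun x => cdP (gT g q0 (T x)) P (I x)) := by
    simp only [cdP_gT_eq]
    refine NPC.Poly.filter (p := fun x (cs : List ℕ) => cs.all fun a => decide (a ≤ (I x).p))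
      (NPC.Poly.map (F := fun x V => cf (I x).m V) ?_ ?_) ?_
    · refine poly_listP (polyTime_gE hg q0) (qb := fun x j q t i => bits ((T x,
        bits ((I x, j, q, fN P (I x), t, i) : QryP)) : Tab × List Bool)) ?_
        hMU hNU (fun x => nnP_pos (PE_pos _ _)) hRB (UPoly.mul hmU hmU) hFP
      have hI' := hI.comp (f := fun x : α × ℕ × ℕ × ℕ × ℕ => x.1) (NPC.Poly.fst NPC.Poly.id)
      have hT' := hT.comp (f := fun x : α × ℕ × ℕ × ℕ × ℕ => x.1) (NPC.Poly.fst NPC.Poly.id)
      have hF' := hFP.comp (f := fun x : α × ℕ × ℕ × ℕ × ℕ => x.1) (NPC.Poly.fst NPC.Poly.id)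
      refine poly_bits (NPC.Poly.pair hT' (poly_bits ?_))
      exact NPC.Poly.pair hI' (NPC.Poly.pair (by fun_prop) (NPC.Poly.pair (by fun_prop)
        (NPC.Poly.pair hF' (by fun_prop))))
    · exact poly_cf (hmU.comp (NPC.Poly.fst NPC.Poly.id)) (NPC.Poly.snd NPC.Poly.id)
    · have h1 := (poly_p hI).comp (f := fun x : α × List ℕ => x.1) (NPC.Poly.fst NPC.Poly.id)
      fun_prop
  have h2 : NPC.Poly (fun x => chkN g q0 P (T x) (I x)) := by
    unfold chkN
    have e1 : UPoly (fun x => (I x).m * (I x).m + 1) := UPoly.add (UPoly.mul hmU hmU) (UPoly.const 1)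
    have e2 := hRB.pow cc
    have e3 := hRB.pow (2 * cc)
    refine NPC.Poly.all (p := fun x j =>
      (List.range (2 ^ (rrP ((PE P).eval (I x).m) * cc))).all fun q =>
      (List.range (2 ^ (rrP ((PE P).eval (I x).m) * (2 * cc)))).all fun t =>
        !decide (gT g q0 (T x) (YN P (I x) j q t) = [])) e1.range ?_
    refine NPC.Poly.all (p := fun (x : α × ℕ) q =>
      (List.range (2 ^ (rrP ((PE P).eval (I x.1).m) * (2 * cc)))).all fun t =>
        !decide (gT g q0 (T x.1) (YN P (I x.1) x.2 q t) = []))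
      ((e2.comp (NPC.Poly.fst NPC.Poly.id)).range) ?_
    refine NPC.Poly.all (p := fun (x : (α × ℕ) × ℕ) t =>
        !decide (gT g q0 (T x.1.1) (YN P (I x.1.1) x.1.2 x.2 t) = []))
      ((e3.comp (NPC.Poly.fst (NPC.Poly.fst NPC.Poly.id))).range) ?_
    refine NPC.Poly.not (NPC.Poly.decide_eq ?_ (NPC.Poly.const []))
    refine poly_gT hg q0 (hT.comp (NPC.Poly.fst (NPC.Poly.fst (NPC.Poly.fst NPC.Poly.id)))) ?_
    unfold YN YL
    refine poly_bits (NPC.Poly.map (F := fun (x : ((α × ℕ) × ℕ) × ℕ) i' => bits ((I x.1.1.1,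
      x.1.1.2, x.1.2, fN P (I x.1.1.1), x.2, i') : QryP))
      ((hMU.comp (NPC.Poly.fst (NPC.Poly.fst (NPC.Poly.fst NPC.Poly.id)))).range) (poly_bits ?_))
    have hI' := hI.comp (f := fun x : (((α × ℕ) × ℕ) × ℕ) × ℕ => x.1.1.1.1) (by fun_prop)
    have hF' := hFP.comp (f := fun x : (((α × ℕ) × ℕ) × ℕ) × ℕ => x.1.1.1.1) (by fun_prop)
    exact NPC.Poly.pair hI' (NPC.Poly.pair (by fun_prop) (NPC.Poly.pair (by fun_prop)
      (NPC.Poly.pair hF' (by fun_prop))))
  unfold cdC
  exact NPC.Poly.ite (NPC.Poly.decide_eq h2 (NPC.Poly.const true)) h1 (NPC.Poly.const [])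

end Pool.Agent.Helper70K1.NQ
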