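import Pool.Agent.Helper70K1.PP.Prune

/-!
# The lists of candidates depend only on the answers for the queries
-/

set_option autoImplicit false

namespace Pool.Agent.Helper70K1.NQ

open Pool.Agent.NPC
open Pool.Agent.Helper70K1.PP
open Pool.Agent.Helper70K1.SP (tb tb_eq hsh hsh_spec nodup_ext)

theorem hsh_lt (l : ℕ) (A : List ℕ) : hsh l A < 2 ^ l := by
  unfold hsh
  cases h4 : (List.range (2 ^ l)).filter fun h => decide (0 < h) && A.all fun u =>
    A.all fun v => decide (u = v) || !decide (u % h = v % h) with
  | nil => simp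
  | cons a t' =>
    have h5 : a ∈ (List.range (2 ^ l)).filter fun h => decide (0 < h) && A.all
        fun u => A.all fun v => decide (u = v) || !decide (u % h = v % h) := by
      rw [h4]; exact List.mem_cons_self
    rw [List.mem_filter, List.mem_range] at h5
    simpa using h5.1

theorem prP_congr {g g' : List Bool → List (List Bool × Bool)} {qb qb' : ℕ → ℕ → ℕ → ℕ → List Bool}
    {M N r : ℕ} {f : List Bool} {j : ℕ}
    (h : ∀ q < 2 ^ (r * cc), ∀ t < 2 ^ (r * (2 * cc)),
      g (bits ((List.range M).map (qb j q t))) = g' (bits ((List.range M).map (qb' j q t))))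
    (A : List ℕ) : prP g qb M N r f j A = prP g' qb' M N r f j A := by
  unfold prP
  rw [h (hsh (r * cc) A) (hsh_lt _ _) (findT r f cc (A.map fun v => v %
    hsh (r * cc) A)) findT_lt]

theorem listP_congr {g g' : List Bool → List (List Bool × Bool)}
    {qb qb' : ℕ → ℕ → ℕ → ℕ → List Bool} {M N r : ℕ} {f : List Bool} {μ : ℕ}
    (h : ∀ j ≤ μ, ∀ q < 2 ^ (r * cc), ∀ t < 2 ^ (r * (2 * cc)),
      g (bits ((List.range M).map (qb j q t))) = g' (bits ((List.range M).map (qb' j q t)))) :
    ∀ j ≤ μ, listP g qb M N r f j = listP g' qb' M N r f j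
  | 0, _ => rfl
  | j + 1, hj => by
    rw [listP, listP, listP_congr h j (by omega), stepP, stepP]
    congr 2
    exact funext fun A => prP_congr (h (j + 1) hj) A

end Pool.Agent.Helper70K1.NQ
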