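import Pool.Agent.Helper70K1.NQ.Vis
import Pool.Agent.Helper70K1.NQ.Cand

/-!
# The run with a table of guesses
-/

set_option autoImplicit false

namespace Pool.Agent.Helper70K1.NQ

open Pool.Agent.NPC
open Pool.Agent.Helper70K1.PP
open Pool.Agent.Helper70K1.SP
open Pool.Agent.H623R2.PS (evq)
open Pool.Agent.H656R2.AK (evc)

/-- The instance of a step. -/
def IN (m p : ℕ) (F : List (List (Bool × ℕ))) (os : List Op) (r : List ℕ) (i : ℕ) : Ins :=
  (List.replicate m (), p, F, os, r, i)

/-- The parameters fit. -/
structure Par (P : Polynomial ℕ) (qs : List Bool) (F : List (List (Bool × ℕ))) (m p : ℕ) :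
    Prop where
  hp : (p + 1).Prime
  h1 : (PMP P).eval m < p + 1
  h2 : p + 1 ≤ 2 * (PMP P).eval m
  hsz : sz F + sz (opsQ qs.length 0 qs) + sz qs + 10 ≤ m
  hpow : (PDP P).eval m + 2 * ((PE P).eval m) ^ 2 < 2 ^ m

/-- The answers of a prediction are good. -/
def SpecN (P q0 : Polynomial ℕ) (gg : List Bool → List (List Bool × Bool)) : Prop :=
  ∀ [∀ x, Decidable (x ∈ LP)], ∀ (n : ℕ) (xs : List (List Bool)), (∀ x ∈ xs, x.length ≤ n) →
    P.eval n ≤ xs.length →
      (∃ w : List Bool, w.length ≤ q0.eval (bits xs).length ∧ gg (pairBits (bits xs) w) ≠ []) ∧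
      ∀ w : List Bool, w.length ≤ q0.eval (bits xs).length → gg (pairBits (bits xs) w) ≠ [] →
        (∀ e ∈ gg (pairBits (bits xs) w), e.1.length = xs.length ∧ true ∈ e.1) ∧
        (P.eval n + 2) * (gg (pairBits (bits xs) w)).length ≤
          2 * P.eval n * ((gg (pairBits (bits xs) w)).filter
            (holds (xs.map fun x => decide (x ∈ LP)))).length

variable {P q0 : Polynomial ℕ} {gg : List Bool → List (List Bool × Bool)} {qs : List Bool}
  {F : List (List (Bool × ℕ))} {m p : ℕ}

theorem Par.pm (H : Par P qs F m p) : p < 2 ^ m := by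
  have h1 := H.h2
  have h2 := H.hpow
  have h3 : (PDP P).eval m = 2 * (PMP P).eval m + 1 := by simp [PDP]
  omega

theorem Par.mp (H : Par P qs F m p) : m ≤ p := by
  have h1 := H.h1
  have h3 : (PMP P).eval m = (PKP P).eval m * (PKP P).eval m * m + m + 2 := by simp [PMP]
  omega

theorem IN_m (m p : ℕ) (F : List (List (Bool × ℕ))) (os : List Op) (r : List ℕ) (i : ℕ) :
    (IN m p F os r i).m = m := by
  change (List.replicate m ()).length = m
  simp

section inst

variable {os : List Op} {r : List ℕ} {i : ℕ}

/-- The lists of queries are long enough and their members short enough. -/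
theorem inst_legit (H : Par P qs F m p) (hos : os <:+ opsQ qs.length 0 qs)
    (hrl : r.length = qs.length) (hra : ∀ a ∈ r, a ≤ p) (hi : i < qs.length) {j q t : ℕ}
    (hj : j ≤ m * m) (hq : q < 2 ^ (rrP ((PE P).eval m) * cc))
    (ht : t < 2 ^ (rrP ((PE P).eval m) * (2 * cc))) :
    (∀ s ∈ YL P (IN m p F os r i) j q t, s.length ≤ (PP.PN).eval m) ∧
      P.eval ((PP.PN).eval m) ≤ (YL P (IN m p F os r i) j q t).length := by
  have hpm := H.pm
  have hsz := H.hsz
  have hn : qs.length < sz qs := length_lt_sz _
  have hIm := IN_m m p F os r i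
  have hM0 : 0 < (PE P).eval m := PE_pos _ _
  obtain ⟨hr0, hr1', hr2'⟩ := rrP_spec hM0
  obtain ⟨hfl, hz⟩ := findF_spec hr0
  have hMm : 2 * ((PE P).eval m) ^ 2 < 2 ^ m := by
    have := H.hpow
    omega
  have hrm : rrP ((PE P).eval m) ≤ m := Nat.size_le.2 hMm
  constructor
  · intro s hs
    unfold YL at hs
    rw [hIm] at hs
    obtain ⟨i', hi', rfl⟩ := List.mem_map.1 hs
    rw [List.mem_range] at hi'
    unfold fN
    rw [bits_length, hIm]
    refine sz_queryP hpm (by omega) ((sz_suffix hos).trans (by omega)) (by omega) hra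
      (by omega) hj hrm (by omega) hq hfl ht (lt_of_lt_of_le hi' ?_)
    have := Nat.le_self_pow (n := 2) (by norm_num) ((PE P).eval m)
    omega
  · unfold YL
    rw [hIm, List.length_map, List.length_range, PE_eval]
    omega

/-- The true list of coefficients. -/
theorem inst_cand (H : Par P qs F m p) (hos : os <:+ opsQ qs.length 0 qs)
    (hrl : r.length = qs.length) (hra : ∀ a ∈ r, a ≤ p) (hi : i < qs.length) :
    ∃ V, Good (IN m p F os r i) V ∧ ∀ γ : List Bool → List (List Bool × Bool),
      (∀ j ≤ m * m, ∀ q < 2 ^ (rrP ((PE P).eval m) * cc),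
      ∀ t < 2 ^ (rrP ((PE P).eval m) * (2 * cc)), γ (YN P (IN m p F os r i) j q t) ≠ [] ∧
        (∀ e ∈ γ (YN P (IN m p F os r i) j q t),
          e.1.length = (YL P (IN m p F os r i) j q t).length ∧ true ∈ e.1) ∧
        ∀ [∀ x, Decidable (x ∈ LP)],
          (P.eval ((PP.PN).eval m) + 2) * (γ (YN P (IN m p F os r i) j q t)).length ≤
          2 * P.eval ((PP.PN).eval m) * ((γ (YN P (IN m p F os r i) j q t)).filter
            (holds ((YL P (IN m p F os r i) j q t).map fun x => decide (x ∈ LP)))).length) →
      cf (IN m p F os r i).m V ∈ cdP γ P (IN m p F os r i) := by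
  have hpm := H.pm
  have hmp := H.mp
  have hsz := H.hsz
  have hn : qs.length < sz qs := length_lt_sz _
  have hIm := IN_m m p F os r i
  have hprime : Fact (p + 1).Prime := ⟨H.hp⟩
  have hdegleaf : (F.map List.length).sum + 2 < m := by
    have key : ∀ F : List (List (Bool × ℕ)), (F.map List.length).sum + 1 ≤ sz F := by
      intro F
      induction F with
      | nil => simp
      | cons c F ih =>
        have := length_lt_sz c
        simp only [List.map_cons, List.sum_cons, sz_list_cons]
        omega
    have := key F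
    omega
  have hwf : Wf (IN m p F os r i) := ⟨by rw [hIm]; exact hpm, by
    change i < r.length
    omega, fun o ho => by
    change o.2 < r.length
    rw [hrl]
    exact opsQ_idx _ _ 0 (by omega) o (hos.subset ho)⟩
  have hprime' : Fact ((IN m p F os r i).p + 1).Prime := hprime
  obtain ⟨V, hV⟩ := good_exists (I := IN m p F os r i) (by rw [hIm]; exact hpm)
    (allDeg_suffix (R := ZMod (p + 1)) (d := (F.map List.length).sum + 2)
      (by omega) (fun i _ => (degLE_leafC F i).mono (by omega)) _ _ os hos i hi)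
    (by rw [hIm]; exact hdegleaf)
  refine ⟨V, hV, fun γ hγ => ?_⟩
  refine cand_mem (P := P) (m := m) (p := p) (i := i) (F := F) (os := os) (r := r) rfl hwf hpm ?_
    hV (fun V' hV' => good_unique (by rw [hIm]; exact hmp) hV hV') hγ
  have := H.hpow
  omega

end inst

/-- The candidates with a table. -/
noncomputable def cdT (gg : List Bool → List (List Bool × Bool)) (q0 P : Polynomial ℕ) (m p : ℕ)
    (F : List (List (Bool × ℕ))) (T : Tab) (os : List Op) (r : List ℕ) (i : ℕ) : List (List ℕ) :=
  cdC gg q0 P T (IN m p F os r i)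

/-- The properties of the candidates found with a table that has all the answers. -/
theorem chk_cand (H : Par P qs F m p) (hpred : SpecN P q0 gg) {T : Tab} {os : List Op}
    {r : List ℕ} {i : ℕ} (hos : os <:+ opsQ qs.length 0 qs)
    (hrl : r.length = qs.length) (hra : ∀ a ∈ r, a ≤ p) (hi : i < qs.length)
    (hchk : chkN gg q0 P T (IN m p F os r i) = true) :
    ∃ V, Good (IN m p F os r i) V ∧ cf (IN m p F os r i).m V ∈ cdT gg q0 P m p F T os r i := by
  classical
  obtain ⟨V, hV, h⟩ := inst_cand (os := os) (r := r) (i := i) H hos hrl hra hi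
  refine ⟨V, hV, ?_⟩
  unfold cdT
  rw [cdC_eq_of_chk hchk]
  refine h (gT gg q0 T) fun j hj q hq t ht => ?_
  rw [chkN_iff, IN_m] at hchk
  have h1 := hchk j hj q hq t ht
  obtain ⟨h2, h3⟩ := inst_legit (i := i) H hos hrl hra hi hj hq ht
  obtain ⟨w, h4, h5, h6⟩ := gT_spec h1
  have e : YN P (IN m p F os r i) j q t = bits (YL P (IN m p F os r i) j q t) := rfl
  refine ⟨h1, ?_, fun {inst} => ?_⟩
  · rw [h6]
    have h7 := (hpred ((PP.PN).eval m) (YL P (IN m p F os r i) j q t) h2 h3).2 w (by rwa [← e])
      (by rwa [← e])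
    rw [← e] at h7
    exact h7.1
  · rw [h6]
    have h7 := (hpred ((PP.PN).eval m) (YL P (IN m p F os r i) j q t) h2 h3).2 w (by rwa [← e])
      (by rwa [← e])
    rw [← e] at h7
    exact h7.2

/-- The result of a run in which all lists of candidates are nonempty is right. -/
theorem run_correct (H : Par P qs F m p) (hpred : SpecN P q0 gg) (T : Tab)
    (hvis : VisOK p ((PDP P).eval m) (cdT gg q0 P m p F T) (opsQ qs.length 0 qs)
      (List.replicate qs.length 0)) :
    runG p ((PDP P).eval m) (fun r => leafN p F r) (fun o y u w => combN p o y u w)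
      (cdT gg q0 P m p F T) (opsQ qs.length 0 qs) (List.replicate qs.length 0) % (p + 1) = 1 ↔
      evq qs (fun v => evc v F) = true := by
  have hprime : Fact (p + 1).Prime := ⟨H.hp⟩
  have hpm := H.pm
  have hmp := H.mp
  have hsz := H.hsz
  have hp1 := H.h1
  have hp2 := H.h2
  have hPM : (PMP P).eval m = (PKP P).eval m * (PKP P).eval m * m + m + 2 := by
    simp [PMP]
  have hPD : (PDP P).eval m = 2 * (PMP P).eval m + 1 := by simp [PDP]
  have hrc := runG_correct' (p := p) (D := (PDP P).eval m) (m := m) (n := qs.length)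
    (K := (PKP P).eval m) (lv := fun r => leafN p F r)
    (cm := fun o y u w => combN p o y u w)
    (cd := cdT gg q0 P m p F T)
    (vf := val (leafC F)) (os0 := opsQ qs.length 0 qs) (by omega) (by omega)
    (by omega) (opsQ_idx _ _ _ (by omega)) (fun r _ _ => cast_leafN p F r) ?_ ?_
    (opsQ qs.length 0 qs) (List.replicate qs.length 0) List.suffix_rfl (by simp) (by
      intro a ha
      rw [List.eq_of_mem_replicate ha]
      exact Nat.zero_le _) hvis
  · have e1 : pt p (List.replicate qs.length 0) = fun _ => (0 : ZMod (p + 1)) := by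
      funext i
      unfold pt
      by_cases hi : i < qs.length
      · rw [List.getD_eq_getElem _ _ (by simpa using hi)]
        simp
      · rw [List.getD_eq_getElem?_getD, List.getElem?_eq_none (by simpa using hi)]
        simp
    rw [e1, val_ops] at hrc
    have h2 : ∀ y : ℕ, y % (p + 1) = 1 ↔ (y : ZMod (p + 1)) = 1 := by
      intro y
      have h3 := ZMod.natCast_eq_natCast_iff' y 1 (p + 1)
      rw [Nat.mod_eq_of_lt (a := 1) (by have := hprime.out.one_lt; omega), Nat.cast_one] at h3
      exact h3.symm
    rw [h2, hrc]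
    unfold bit
    split_ifs with hb
    · simp [hb]
    · simp [hb]
  · rintro ⟨o, i⟩ os r u w hrl hra hi hu hw
    simp only
    rw [cast_combN, hu, hw]
    rfl
  · intro os r i hos hne hrl hra hi hnil
    have hchk : chkN gg q0 P T (IN m p F os r i) = true := by
      by_contra hcon
      refine hnil ?_
      unfold cdT cdC
      rw [if_neg hcon]
    have hIm := IN_m m p F os r i
    have hIp : (IN m p F os r i).p = p := rfl
    obtain ⟨V, hV, hmem⟩ := chk_cand (i := i) H hpred hos hrl hra hi hchk
    refine ⟨?_, ?_, cf (IN m p F os r i).m V, hmem, hV.2.2⟩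
    · unfold cdT
      rw [cdC_eq_of_chk hchk]
      have h1 := length_cdP_le (gT gg q0 T) P (IN m p F os r i)
      rw [hIm] at h1
      exact h1
    · intro cs hcs
      unfold cdT at hcs
      rw [cdC_eq_of_chk hchk] at hcs
      have h1 := cdP_spec (gT gg q0 T) P (IN m p F os r i) cs hcs
      rw [hIm, hIp] at h1
      exact h1

end Pool.Agent.Helper70K1.NQ
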