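import Pool.Agent.Helper70K1.PP.Bias
import Pool.Agent.NPC.Defs

/-!
# Languages that are parity predictable by a nondeterministic algorithm
-/

set_option autoImplicit false

namespace Pool.Agent.Helper70K1.NQ

open Pool.Agent.NPC
open Pool.Agent.Helper70K1.PP (holds)

open Classical in
/-- A language `L` is parity predictable by a nondeterministic algorithm if for polynomials `P`, `q`
a function `g`, computable in polynomial time, gets a list `xs` of at least `P(n)` strings of length
at most `n` and a guess `w`, of length at most `q(k)` where `k` is the length of the code of `xs`,
and gives a list `E` of statements `(s, b)`; the guess is rejected if `E` is empty. Some guess is not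
rejected. Each guess that is not rejected gives a list `E` of admissible statements of which at least
a fraction `1/2 + 1/P(n)` is true.

A statement is admissible if `s` is a list of booleans, as long as `xs`, not all of them `false`; it
selects the strings `x` in `xs` at the positions where it has `true`. The statement says that the
parity of the number of the selected strings that are in `L` is `b` (`true`: odd). -/
def NPredictable (L : Set (List Bool)) : Prop :=
  ∃ (P q : Polynomial ℕ) (g : List Bool → List (List Bool × Bool)),
    PolyTime (fun y => bits (g y)) ∧
    ∀ (n : ℕ) (xs : List (List Bool)), (∀ x ∈ xs, x.length ≤ n) → P.eval n ≤ xs.length →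
      (∃ w : List Bool, w.length ≤ q.eval (bits xs).length ∧ g (pairBits (bits xs) w) ≠ []) ∧
      ∀ w : List Bool, w.length ≤ q.eval (bits xs).length → g (pairBits (bits xs) w) ≠ [] →
        (∀ e ∈ g (pairBits (bits xs) w), e.1.length = xs.length ∧ true ∈ e.1) ∧
        (P.eval n + 2) * (g (pairBits (bits xs) w)).length ≤
          2 * P.eval n * ((g (pairBits (bits xs) w)).filter
            (holds (xs.map fun x => decide (x ∈ L)))).length

/-- A strong nondeterministic polynomial-time many-one reduction of `L` to `K`: for every string `x`
some guess `w` of polynomial length is accepted by `V`, and each accepted guess `w` gives a string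
`f(x, w)` that is in `K` if and only if `x` is in `L`. -/
def SNReduces (L K : Set (List Bool)) : Prop :=
  ∃ (f V : List Bool → List Bool) (q : Polynomial ℕ), PolyTime f ∧ PolyTime V ∧
    ∀ x : List Bool,
      (∃ w : List Bool, w.length ≤ q.eval x.length ∧ V (pairBits x w) = [true]) ∧
      ∀ w : List Bool, w.length ≤ q.eval x.length → V (pairBits x w) = [true] →
        (x ∈ L ↔ f (pairBits x w) ∈ K)

end Pool.Agent.Helper70K1.NQ
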